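import Pool.Agent.H660Z.Ds.Defs

namespace Pool.Agent.H660Z.Ds

theorem nd_nonneg (x : ℝ) : 0 ≤ nd x := abs_nonneg _

theorem nd_le (x : ℝ) (z : ℤ) : nd x ≤ |x - z| := round_le x z

theorem nd_le_half (x : ℝ) : nd x ≤ 1 / 2 := abs_sub_round x

theorem nd_lip (x y : ℝ) : nd x ≤ nd y + |x - y| := by
  have h1 := nd_le x (round y)
  have h2 : |x - (round y : ℝ)| ≤ |x - y| + |y - round y| := abs_sub_le _ _ _
  unfold nd at *
  linarith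

theorem nd_neg (x : ℝ) : nd (-x) = nd x := by
  apply le_antisymm
  · have h := nd_le (-x) (-(round x))
    have : |(-x) - ((-(round x) : ℤ) : ℝ)| = nd x := by
      unfold nd; push_cast; rw [← abs_neg]; congr 1; ring
    linarith
  · have h := nd_le x (-(round (-x)))
    have : |x - ((-(round (-x)) : ℤ) : ℝ)| = nd (-x) := by
      unfold nd; push_cast; rw [← abs_neg]; congr 1; ring
    linarith

theorem nd_int (z : ℤ) : nd (z : ℝ) = 0 := by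
  unfold nd; simp

theorem mQ_nonneg (ξ ζ Q : ℝ) : 0 ≤ mQ ξ ζ Q := by
  unfold mQ
  apply Real.sInf_nonneg
  rintro v ⟨q, -, -, rfl⟩
  exact mul_nonneg (nd_nonneg _) (nd_nonneg _)

theorem mQ_le (ξ ζ Q : ℝ) (q : ℤ) (h1 : 1 ≤ q) (h2 : (q : ℝ) ≤ Q) :
    mQ ξ ζ Q ≤ nd (q * ξ) * nd (q * ζ) := by
  unfold mQ
  apply csInf_le
  · refine ⟨0, ?_⟩
    rintro v ⟨q, -, -, rfl⟩
    exact mul_nonneg (nd_nonneg _) (nd_nonneg _)
  · exact ⟨q, h1, h2, rfl⟩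

theorem le_mQ (ξ ζ Q c : ℝ) (hQ : 1 ≤ Q)
    (h : ∀ q : ℤ, 1 ≤ q → (q : ℝ) ≤ Q → c ≤ nd (q * ξ) * nd (q * ζ)) : c ≤ mQ ξ ζ Q := by
  unfold mQ
  apply le_csInf
  · exact ⟨_, 1, le_refl _, by simpa using hQ, rfl⟩
  · rintro v ⟨q, h1, h2, rfl⟩
    exact h q h1 h2

theorem mQ_comm (ξ ζ Q : ℝ) : mQ ξ ζ Q = mQ ζ ξ Q := by
  unfold mQ
  congr 1
  ext v
  constructor <;> rintro ⟨q, h1, h2, rfl⟩ <;> exact ⟨q, h1, h2, mul_comm _ _⟩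

theorem mQ_floor (ξ ζ Q : ℝ) (hQ : 0 ≤ Q) : mQ ξ ζ Q = mQ ξ ζ (⌊Q⌋₊ : ℕ) := by
  unfold mQ
  congr 1
  ext v
  constructor
  · rintro ⟨q, h1, h2, rfl⟩
    refine ⟨q, h1, ?_, rfl⟩
    have h3 : q ≤ ⌊Q⌋ := Int.le_floor.2 h2
    have h4 : ((⌊Q⌋₊ : ℕ) : ℤ) = ⌊Q⌋ := Int.natCast_floor_eq_floor hQ
    have h5 : q ≤ ((⌊Q⌋₊ : ℕ) : ℤ) := by rw [h4]; exact h3
    exact_mod_cast h5
  · rintro ⟨q, h1, h2, rfl⟩
    exact ⟨q, h1, h2.trans (Nat.floor_le hQ), rfl⟩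

theorem prod_lip (q ξ ζ ξ' ζ' : ℝ) (hq : 0 ≤ q) :
    nd (q * ξ) * nd (q * ζ) ≤ nd (q * ξ') * nd (q * ζ') + q * (|ξ - ξ'| + |ζ - ζ'|) := by
  have h1 := nd_lip (q * ξ) (q * ξ')
  have h2 := nd_lip (q * ζ) (q * ζ')
  rw [← mul_sub, abs_mul, abs_of_nonneg hq] at h1 h2
  have a1 := nd_nonneg (q * ξ)
  have a2 := nd_nonneg (q * ζ)
  have a3 := nd_nonneg (q * ξ')
  have a4 := nd_nonneg (q * ζ')
  have b2 := nd_le_half (q * ζ)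
  have b3 := nd_le_half (q * ξ')
  have c1 : 0 ≤ q * |ξ - ξ'| := mul_nonneg hq (abs_nonneg _)
  have c2 : 0 ≤ q * |ζ - ζ'| := mul_nonneg hq (abs_nonneg _)
  calc nd (q * ξ) * nd (q * ζ) ≤ (nd (q * ξ') + q * |ξ - ξ'|) * nd (q * ζ) :=
        mul_le_mul_of_nonneg_right h1 a2
    _ = nd (q * ξ') * nd (q * ζ) + q * |ξ - ξ'| * nd (q * ζ) := by ring
    _ ≤ nd (q * ξ') * (nd (q * ζ') + q * |ζ - ζ'|) + q * |ξ - ξ'| * 1 := by
        gcongr; linarith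
    _ = nd (q * ξ') * nd (q * ζ') + nd (q * ξ') * (q * |ζ - ζ'|) + q * |ξ - ξ'| := by ring
    _ ≤ nd (q * ξ') * nd (q * ζ') + 1 * (q * |ζ - ζ'|) + q * |ξ - ξ'| := by
        gcongr; linarith
    _ = _ := by ring

theorem mQ_lip (ξ ζ ξ' ζ' Q : ℝ) (hQ : 1 ≤ Q) :
    mQ ξ ζ Q ≤ mQ ξ' ζ' Q + Q * (|ξ - ξ'| + |ζ - ζ'|) := by
  have : mQ ξ ζ Q - Q * (|ξ - ξ'| + |ζ - ζ'|) ≤ mQ ξ' ζ' Q := by
    apply le_mQ _ _ _ _ hQ
    intro q h1 h2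
    have h3 := mQ_le ξ ζ Q q h1 h2
    have hq : (0 : ℝ) ≤ q := by exact_mod_cast (by omega : (0 : ℤ) ≤ q)
    have h4 := prod_lip q ξ ζ ξ' ζ' hq
    have h5 : (q : ℝ) * (|ξ - ξ'| + |ζ - ζ'|) ≤ Q * (|ξ - ξ'| + |ζ - ζ'|) :=
      mul_le_mul_of_nonneg_right h2 (by positivity)
    linarith
  linarith

theorem mQ_cont (ζ Q : ℝ) (hQ : 1 ≤ Q) : Continuous (fun ξ => mQ ξ ζ Q) := by
  have hL : LipschitzWith (Real.toNNReal Q) (fun ξ => mQ ξ ζ Q) := by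
    apply LipschitzWith.of_le_add_mul'
    intro x y
    have := mQ_lip x ζ y ζ Q hQ
    simpa [Real.dist_eq] using this
  exact hL.continuous

/-- Upper bound for `L` from a bound at large natural `M`. -/
theorem Lval_le (ξ ζ t C : ℝ) (n0 : ℕ)
    (h : ∀ M : ℕ, n0 ≤ M → ((M : ℝ) + 1) * mQ ξ ζ M ≤ t + C / ((M : ℝ) + 1)) :
    (∀ ε > 0, ∀ᶠ Q : ℝ in Filter.atTop, Q * mQ ξ ζ Q ≤ t + ε) ∧ Lval ξ ζ ≤ t := by
  have key : ∀ ε > 0, ∀ᶠ Q : ℝ in Filter.atTop, Q * mQ ξ ζ Q ≤ t + ε := by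
    intro ε hε
    filter_upwards [Filter.eventually_ge_atTop (n0 : ℝ), Filter.eventually_ge_atTop (|C| / ε),
      Filter.eventually_ge_atTop (0 : ℝ)] with Q h1 h2 h3
    have hM : n0 ≤ ⌊Q⌋₊ := Nat.le_floor h1
    have h4 := h _ hM
    have h5 : Q < (⌊Q⌋₊ : ℝ) + 1 := Nat.lt_floor_add_one Q
    rw [mQ_floor ξ ζ Q h3]
    have h6 : Q * mQ ξ ζ (⌊Q⌋₊ : ℕ) ≤ ((⌊Q⌋₊ : ℝ) + 1) * mQ ξ ζ (⌊Q⌋₊ : ℕ) :=
      mul_le_mul_of_nonneg_right h5.le (mQ_nonneg _ _ _)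
    have h7 : C / ((⌊Q⌋₊ : ℝ) + 1) ≤ ε := by
      rw [div_le_iff₀ (by positivity)]
      rw [div_le_iff₀ hε] at h2
      have := le_abs_self C
      nlinarith
    linarith
  refine ⟨key, ?_⟩
  apply le_of_forall_pos_le_add
  intro ε hε
  unfold Lval
  apply Filter.limsup_le_of_le _ (key ε hε)
  apply Filter.isCoboundedUnder_le_of_eventually_le Filter.atTop (x := 0)
  filter_upwards [Filter.eventually_ge_atTop (0 : ℝ)] with Q h3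
  exact mul_nonneg h3 (mQ_nonneg _ _ _)

theorem Lval_nonneg (ξ ζ t : ℝ)
    (h : ∀ᶠ Q : ℝ in Filter.atTop, Q * mQ ξ ζ Q ≤ t) : 0 ≤ Lval ξ ζ := by
  unfold Lval
  apply Filter.le_limsup_of_frequently_le
  · apply Filter.Eventually.frequently
    filter_upwards [Filter.eventually_ge_atTop (0 : ℝ)] with Q h3
    exact mul_nonneg h3 (mQ_nonneg _ _ _)
  · exact ⟨t, h⟩

theorem Lval_eq (ξ ζ t C : ℝ) (n0 : ℕ)
    (h : ∀ M : ℕ, n0 ≤ M → ((M : ℝ) + 1) * mQ ξ ζ M ≤ t + C / ((M : ℝ) + 1))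
    (h' : ∀ K : ℕ, ∃ M : ℕ, K ≤ M ∧ t - C / ((M : ℝ) + 1) ≤ ((M : ℝ) + 1) * mQ ξ ζ M) :
    Lval ξ ζ = t := by
  obtain ⟨key, hle⟩ := Lval_le ξ ζ t C n0 h
  apply le_antisymm hle
  apply le_of_forall_pos_le_add
  intro ε hε
  have : t - ε ≤ Lval ξ ζ := by
    unfold Lval
    apply Filter.le_limsup_of_frequently_le
    · rw [Filter.frequently_atTop]
      intro a
      obtain ⟨K, hK⟩ := exists_nat_ge (max a ((|t| + 2 * |C|) / ε))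
      obtain ⟨M, hM1, hM2⟩ := h' (max K n0)
      have hKM : K ≤ M := le_trans (le_max_left _ _) hM1
      have hKM' : (K : ℝ) ≤ M := by exact_mod_cast hKM
      have hn : n0 ≤ M := le_trans (le_max_right _ _) hM1
      refine ⟨M, le_trans (le_trans (le_max_left _ _) hK) hKM', ?_⟩
      have h1 := h M hn
      have h2 : (|t| + 2 * |C|) / ε ≤ M := le_trans (le_trans (le_max_right _ _) hK) hKM'
      rw [div_le_iff₀ hε] at h2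
      have hM0 : (0 : ℝ) ≤ M := Nat.cast_nonneg M
      have hP : (0 : ℝ) < (M : ℝ) + 1 := by linarith
      have h3 : C / ((M : ℝ) + 1) ≤ |C| / ((M : ℝ) + 1) :=
        div_le_div_of_nonneg_right (le_abs_self C) hP.le
      have h4 : |C| / ((M : ℝ) + 1) ≤ |C| := div_le_self (abs_nonneg C) (by linarith)
      have h5 : mQ ξ ζ M ≤ (|t| + |C|) / ((M : ℝ) + 1) := by
        rw [le_div_iff₀ hP]
        have := le_abs_self t
        linarith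
      have h6 : (|t| + |C|) / ((M : ℝ) + 1) + |C| / ((M : ℝ) + 1) ≤ ε := by
        rw [← add_div, div_le_iff₀ hP]
        nlinarith
      linarith
    · exact ⟨t + 1, key 1 one_pos⟩
  linarith

end Pool.Agent.H660Z.Ds
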