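import Mathlib

namespace Pool.Agent.H660Z.Ds

/-- Distance from `x` to the nearest integer. -/
noncomputable def nd (x : ℝ) : ℝ := |x - (round x : ℝ)|

/-- `m_Q(ξ,ζ)`: the minimum of `‖qξ‖ ‖qζ‖` over integers `1 ≤ q ≤ Q`
(for `Q ≥ 1` the set is finite and nonempty, so the infimum is its minimum). -/
noncomputable def mQ (ξ ζ Q : ℝ) : ℝ :=
  sInf {v : ℝ | ∃ q : ℤ, 1 ≤ q ∧ (q : ℝ) ≤ Q ∧ v = nd (q * ξ) * nd (q * ζ)}

/-- `L(ξ,ζ) = limsup_{Q → ∞} Q m_Q(ξ,ζ)`, with `Q` real. -/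
noncomputable def Lval (ξ ζ : ℝ) : ℝ :=
  Filter.limsup (fun Q : ℝ => Q * mQ ξ ζ Q) Filter.atTop

/-- The multiplicative Dirichlet spectrum: the range of `L`. -/
def Spec : Set ℝ := {t : ℝ | ∃ ξ ζ : ℝ, Lval ξ ζ = t}

end Pool.Agent.H660Z.Ds
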