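import Pool.Agent.H660Z.Ds.Basic

namespace Pool.Agent.H660Z.Ds

theorem cassini (i : ℕ) :
    ((Nat.fib (i + 1) : ℤ) ^ 2 - Nat.fib (i + 1) * Nat.fib i - (Nat.fib i : ℤ) ^ 2) ^ 2 = 1 := by
  induction i with
  | zero => simp
  | succ i ih =>
    rw [Nat.fib_add_two]
    push_cast
    rw [← ih]; ring

theorem norm_ne (u v : ℤ) (h : u ^ 2 + u * v - v ^ 2 = 0) : u = 0 ∧ v = 0 := by
  have hv : v = 0 := by
    by_contra hv
    have h5 : Irrational (√(5 : ℕ)) := Nat.Prime.irrational_sqrt (by norm_num)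
    apply h5
    refine ⟨|((2 * u + v : ℤ) : ℚ) / v|, ?_⟩
    have hv' : (v : ℝ) ≠ 0 := by exact_mod_cast hv
    have h' : (u : ℝ) ^ 2 + u * v - (v : ℝ) ^ 2 = 0 := by exact_mod_cast h
    push_cast
    rw [eq_comm, Real.sqrt_eq_iff_mul_self_eq (by norm_num) (abs_nonneg _), abs_mul_abs_self]
    field_simp
    nlinarith
  subst hv
  exact ⟨by nlinarith, rfl⟩

theorem prodLB (A B u v : ℤ) (hs : (A ^ 2 - A * B - B ^ 2) ^ 2 = 1)
    (ha : u * A - v * B ≠ 0) (hN : |u * A - v * B| < A ^ 2 + B ^ 2) :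
    (3 - √5) / 2 * ((A ^ 2 + B ^ 2 : ℤ) : ℝ) ≤
      |((u * A - v * B : ℤ) : ℝ)| * |((u * B + v * A : ℤ) : ℝ)| := by
  have hid : (A ^ 2 + B ^ 2) ^ 2 * (u ^ 2 + u * v - v ^ 2) =
      (A ^ 2 - A * B - B ^ 2) * ((u * A - v * B) ^ 2 - (u * B + v * A) ^ 2) +
      (4 * A * B + A ^ 2 - B ^ 2) * ((u * A - v * B) * (u * B + v * A)) := by ring
  have hL : (4 * A * B + A ^ 2 - B ^ 2) ^ 2 + 4 * (A ^ 2 - A * B - B ^ 2) ^ 2 =
      5 * (A ^ 2 + B ^ 2) ^ 2 := by ring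
  have hn : u ^ 2 + u * v - v ^ 2 ≠ 0 := by
    intro h
    obtain ⟨rfl, rfl⟩ := norm_ne u v h
    simp at ha
  generalize u ^ 2 + u * v - v ^ 2 = n at *
  generalize u * A - v * B = a at *
  generalize u * B + v * A = b at *
  generalize 4 * A * B + A ^ 2 - B ^ 2 = L at *
  generalize A ^ 2 - A * B - B ^ 2 = s at *
  generalize A ^ 2 + B ^ 2 = N at *
  have hN0 : 0 < N := lt_of_le_of_lt (abs_nonneg _) hN
  have hs1 : |s| = 1 := by
    have : |s| ^ 2 = 1 := by rw [sq_abs]; exact hs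
    have h0 := abs_nonneg s
    nlinarith
  have hn1 : 1 ≤ |n| := Int.one_le_abs hn
  have h1 : N ^ 2 ≤ |a ^ 2 - b ^ 2| + |L| * (|a| * |b|) := by
    calc N ^ 2 ≤ N ^ 2 * |n| := by nlinarith
      _ = |N ^ 2 * n| := by rw [abs_mul, abs_of_nonneg (sq_nonneg N)]
      _ = |s * (a ^ 2 - b ^ 2) + L * (a * b)| := by rw [hid]
      _ ≤ |s * (a ^ 2 - b ^ 2)| + |L * (a * b)| := abs_add_le _ _
      _ = _ := by rw [abs_mul, abs_mul, abs_mul, hs1, one_mul]
  have ha1 : 1 ≤ |a| := Int.one_le_abs ha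
  have hb : b ≠ 0 := by
    rintro rfl
    simp at h1
    have : |a| ^ 2 < N ^ 2 := by nlinarith
    rw [sq_abs] at this
    linarith
  have hb1 : 1 ≤ |b| := Int.one_le_abs hb
  have h2 : |a ^ 2 - b ^ 2| ≤ (|a| * |b|) ^ 2 := by
    rw [← sq_abs a, ← sq_abs b]
    have p1 : 1 ≤ |a| ^ 2 := by nlinarith
    have p2 : 1 ≤ |b| ^ 2 := by nlinarith
    rw [mul_pow, abs_le]
    constructor <;> nlinarith
  have h3 : |L| ^ 2 ≤ 5 * N ^ 2 := by rw [sq_abs]; nlinarith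
  have h4 : N ^ 2 ≤ (|a| * |b|) ^ 2 + |L| * (|a| * |b|) := by linarith
  have h3' : ((|L| : ℤ) : ℝ) ^ 2 ≤ 5 * (N : ℝ) ^ 2 := by exact_mod_cast h3
  have h4' : (N : ℝ) ^ 2 ≤ (|(a : ℝ)| * |(b : ℝ)|) ^ 2 + ((|L| : ℤ) : ℝ) * (|(a : ℝ)| * |(b : ℝ)|) := by
    exact_mod_cast h4
  have hN0' : (0 : ℝ) < N := by exact_mod_cast hN0
  have hP : 0 ≤ |(a : ℝ)| * |(b : ℝ)| := by positivity
  generalize |(a : ℝ)| * |(b : ℝ)| = P at *
  generalize ((|L| : ℤ) : ℝ) = l at *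
  have s0 : 0 ≤ √5 := Real.sqrt_nonneg 5
  have s1 : √5 * √5 = 5 := Real.mul_self_sqrt (by norm_num)
  have h5 : l ≤ √5 * N := by
    have : |l| ≤ √5 * N := abs_le_of_sq_le_sq (by nlinarith) (by positivity)
    exact (le_abs_self l).trans this
  by_contra hc
  push Not at hc
  have h6 : l * P ≤ √5 * N * P := mul_le_mul_of_nonneg_right h5 hP
  have h7 : P * P ≤ P * ((3 - √5) / 2 * N) := mul_le_mul_of_nonneg_left hc.le hP
  have h8 : P * ((3 + √5) / 2 * N) < ((3 - √5) / 2 * N) * ((3 + √5) / 2 * N) :=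
    mul_lt_mul_of_pos_right hc (by positivity)
  nlinarith

theorem fib_le_pow (m : ℕ) : Nat.fib (m + 2) ≤ 2 ^ m := by
  induction m with
  | zero => simp
  | succ m ih =>
    have h1 : Nat.fib (m + 1 + 2) = Nat.fib (m + 1) + Nat.fib (m + 2) := Nat.fib_add_two
    have h2 : Nat.fib (m + 1) ≤ Nat.fib (m + 2) := Nat.fib_le_fib_succ
    rw [h1, pow_succ]; omega

theorem ocagne (i e : ℕ) : ((Nat.fib (i + e + 1) : ℤ) * Nat.fib i -
    Nat.fib (i + e) * Nat.fib (i + 1)) ^ 2 = (Nat.fib e : ℤ) ^ 2 := by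
  rcases e with _ | e
  · simp [mul_comm]
  · have h1 := Nat.fib_add i (e + 1)
    have h2 := Nat.fib_add i e
    have h3 : Nat.fib (e + 1 + 1) = Nat.fib e + Nat.fib (e + 1) := Nat.fib_add_two
    rw [h1, show i + (e + 1) = i + e + 1 by ring, h2, h3]
    push_cast
    have := cassini i
    calc _ = (Nat.fib (e + 1) : ℤ) ^ 2 *
      ((Nat.fib (i + 1) : ℤ) ^ 2 - Nat.fib (i + 1) * Nat.fib i - (Nat.fib i : ℤ) ^ 2) ^ 2 := by ring
      _ = _ := by rw [this, mul_one]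

theorem prime_big (j p : ℕ) (hj : j.Prime) (hp : p.Prime) (hd : p ∣ Nat.fib j) : j - 1 ≤ p := by
  have := Fact.mk hp
  have nz : ∀ e, 0 < e → e < j → ((Nat.fib e : ℕ) : ZMod p) ≠ 0 := by
    intro e h0 h1 h
    rw [ZMod.natCast_eq_zero_iff] at h
    have hc : Nat.Coprime e j := (Nat.coprime_of_lt_prime h0.ne' h1 hj).symm
    have h2 : p ∣ Nat.gcd (Nat.fib e) (Nat.fib j) := Nat.dvd_gcd h hd
    rw [← Nat.fib_gcd, hc.gcd_eq_one] at h2
    exact hp.one_lt.ne' (Nat.dvd_one.1 (by simpa using h2))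
  have key : ∀ i l : ℕ, i < l → l < j - 1 →
      ((Nat.fib (i + 2) : ℕ) : ZMod p) / (Nat.fib (i + 1) : ℕ) ≠
      ((Nat.fib (l + 2) : ℕ) : ZMod p) / (Nat.fib (l + 1) : ℕ) := by
    intro i l hil hl h
    rw [div_eq_div_iff (nz _ (by omega) (by omega)) (nz _ (by omega) (by omega))] at h
    obtain ⟨e, rfl⟩ := Nat.exists_eq_add_of_lt hil
    have h1 := ocagne (i + 1) (e + 1)
    have h2 := congrArg (Int.cast : ℤ → ZMod p) h1
    push_cast at h2
    rw [show i + 1 + (e + 1) + 1 = i + e + 1 + 2 by ring,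
      show i + 1 + (e + 1) = i + e + 1 + 1 by ring, show i + 1 + 1 = i + 2 by ring] at h2
    have h3 : ((Nat.fib (e + 1) : ℕ) : ZMod p) ^ 2 = 0 := by
      rw [← h2, ← h]; ring
    exact nz (e + 1) (by omega) (by omega) (pow_eq_zero_iff (by norm_num) |>.1 h3)
  have hcard := Finset.card_le_card_of_injOn (s := Finset.range (j - 1))
    (t := (Finset.univ : Finset (ZMod p)))
    (fun i => ((Nat.fib (i + 2) : ℕ) : ZMod p) / (Nat.fib (i + 1) : ℕ))
    (fun _ _ => Finset.mem_coe.2 (Finset.mem_univ _)) (by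
      intro i hi l hl h
      simp only [Finset.coe_range, Set.mem_Iio] at hi hl
      rcases lt_trichotomy i l with h1 | h1 | h1
      · exact absurd h (key i l h1 hl)
      · exact h1
      · exact absurd h.symm (key l i h1 hi))
  simpa [ZMod.card] using hcard

theorem exists_coprime (k : ℕ) (hk : 1 ≤ k) (hj : (2 * k + 1).Prime) (c : ℤ) :
    ∃ s : ℕ, s < 2 * k ∧ IsCoprime (c + s * (Nat.fib (k + 1) : ℤ)) (Nat.fib (2 * k + 1) : ℤ) := by
  by_contra hc
  push Not at hc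
  have hN : Nat.fib (2 * k + 1) ≠ 0 := (Nat.fib_pos.2 (by omega)).ne'
  have h1 : ∀ s : ℕ, s < 2 * k → ∃ p : ℕ, p ∈ (Nat.fib (2 * k + 1)).primeFactors ∧
      (p : ℤ) ∣ c + s * (Nat.fib (k + 1) : ℤ) := by
    intro s hs
    have h2 := hc s hs
    rw [Int.isCoprime_iff_gcd_eq_one] at h2
    obtain ⟨p, hp, hpd⟩ := Nat.exists_prime_and_dvd h2
    refine ⟨p, ?_, ?_⟩
    · rw [Nat.mem_primeFactors]
      refine ⟨hp, ?_, hN⟩
      have := (Int.natCast_dvd_natCast.2 hpd).trans (Int.gcd_dvd_right _ _)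
      exact_mod_cast this
    · exact (Int.natCast_dvd_natCast.2 hpd).trans (Int.gcd_dvd_left _ _)
  choose! f hf using h1
  have hcard := Finset.card_le_card_of_injOn (s := Finset.range (2 * k))
    (t := (Nat.fib (2 * k + 1)).primeFactors) f
    (fun s hs => Finset.mem_coe.2 (hf s (by simpa using hs)).1) (by
      intro s hs s' hs' h
      simp only [Finset.coe_range, Set.mem_Iio] at hs hs'
      obtain ⟨a1, a2⟩ := hf s hs
      obtain ⟨-, b2⟩ := hf s' hs'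
      rw [← h] at b2
      generalize f s = p at *
      obtain ⟨hp, hpd, -⟩ := Nat.mem_primeFactors.1 a1
      have hbig := prime_big _ p hj hp hpd
      have h3 : (p : ℤ) ∣ ((s : ℤ) - s') * (Nat.fib (k + 1) : ℤ) := by
        have := dvd_sub a2 b2
        rwa [show c + s * (Nat.fib (k + 1) : ℤ) - (c + s' * (Nat.fib (k + 1) : ℤ)) =
          ((s : ℤ) - s') * (Nat.fib (k + 1) : ℤ) by ring] at this
      rcases (Nat.prime_iff_prime_int.1 hp).dvd_or_dvd h3 with h4 | h4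
      · have h5 := Int.eq_zero_of_abs_lt_dvd h4 (by rw [abs_lt]; constructor <;> omega)
        omega
      · exfalso
        have h5 : p ∣ Nat.fib (k + 1) := by exact_mod_cast h4
        rw [Nat.fib_two_mul_add_one] at hpd
        have h6 : p ∣ Nat.fib k ^ 2 := (Nat.dvd_add_right (dvd_pow h5 (by norm_num))).1 hpd
        have h7 : p ∣ Nat.fib k := hp.dvd_of_dvd_pow h6
        have h8 := Nat.dvd_gcd h7 h5
        rw [(Nat.fib_coprime_fib_succ k).gcd_eq_one] at h8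
        exact hp.one_lt.ne' (Nat.dvd_one.1 h8))
  have h2 : 2 ^ (Nat.fib (2 * k + 1)).primeFactors.card ≤
      ∏ p ∈ (Nat.fib (2 * k + 1)).primeFactors, p :=
    Finset.pow_card_le_prod _ _ _ (fun p hp => (Nat.prime_of_mem_primeFactors hp).two_le)
  have h3 := Nat.le_of_dvd (Nat.pos_of_ne_zero hN) (Nat.prod_primeFactors_dvd (Nat.fib (2 * k + 1)))
  have h4 := fib_le_pow (2 * k - 1)
  rw [show 2 * k - 1 + 2 = 2 * k + 1 by omega] at h4
  have h5 := (Nat.pow_le_pow_iff_right (by norm_num : 1 < 2)).1 (h2.trans (h3.trans h4))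
  simp at hcard
  omega

theorem dense_good (x y δ : ℝ) (hδ : 0 < δ) (n : ℕ) :
    ∃ (N : ℕ) (a b : ℤ), n < N ∧ |(a : ℝ) / N - x| < δ ∧ |(b : ℝ) / N - y| < δ ∧
      ∀ q : ℤ, 1 ≤ q → q < N →
        (3 - √5) / 2 ≤ N * (nd (q * ((a : ℝ) / N)) * nd (q * ((b : ℝ) / N))) := by
  obtain ⟨m0, hm0⟩ := exists_nat_gt (5 / δ)
  obtain ⟨j, hj1, hj⟩ := Nat.exists_infinite_primes (4 * m0 + n + 30)
  obtain ⟨k, rfl⟩ := hj.odd_of_ne_two (by omega)
  have hA1 : (k / 2) ^ 2 ≤ Nat.fib (k + 1) := by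
    have h1 : Nat.fib (2 * (k / 2) + 1) ≤ Nat.fib (k + 1) := Nat.fib_mono (by omega)
    have h2 := Nat.le_fib_self (n := k / 2) (by omega)
    rw [Nat.fib_two_mul_add_one] at h1
    have h3 : (k / 2) ^ 2 ≤ Nat.fib (k / 2) ^ 2 := Nat.pow_le_pow_left h2 2
    omega
  have hAB : Nat.fib k ≤ Nat.fib (k + 1) := Nat.fib_le_fib_succ
  have hNn : 2 * k + 1 ≤ Nat.fib (2 * k + 1) := Nat.le_fib_self (by omega)
  have hcas := cassini k
  have hcop := exists_coprime k (by omega) hj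
  have hN := Nat.fib_two_mul_add_one k
  generalize Nat.fib (2 * k + 1) = N at *
  generalize Nat.fib (k + 1) = A at *
  generalize Nat.fib k = B at *
  have hm1 : m0 ≤ k / 2 := by omega
  have hm2 : 2 * k + 1 ≤ 5 * (k / 2) := by omega
  have hm3 : 5 ≤ k / 2 := by omega
  generalize k / 2 = m at *
  set u0 : ℤ := round (x * A + y * B) with hu0
  set v0 : ℤ := round (y * A - x * B) with hv0
  obtain ⟨s, hs, hco⟩ := hcop (u0 * A - v0 * B)
  have hNZ : (N : ℤ) = (A : ℤ) ^ 2 + (B : ℤ) ^ 2 := by exact_mod_cast hN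
  have hNR : (N : ℝ) = (A : ℝ) ^ 2 + (B : ℝ) ^ 2 := by exact_mod_cast hN
  have hN0 : (0 : ℝ) < N := by exact_mod_cast (by omega : 0 < N)
  have e1 := abs_le.1 (abs_sub_round (x * A + y * B))
  have e2 := abs_le.1 (abs_sub_round (y * A - x * B))
  rw [← hu0] at e1
  rw [← hv0] at e2
  have hABr : (B : ℝ) ≤ A := by exact_mod_cast hAB
  have hB0 : (0 : ℝ) ≤ B := Nat.cast_nonneg B
  have hs0 : (0 : ℝ) ≤ s := Nat.cast_nonneg s
  have hs1 : (s : ℝ) + 1 ≤ 5 * m := by exact_mod_cast (by omega : s + 1 ≤ 5 * m)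
  have hmA : (m : ℝ) ^ 2 ≤ A := by exact_mod_cast hA1
  have hm5 : (5 : ℝ) ≤ m := by exact_mod_cast hm3
  have hmδ : 5 < δ * m := by
    rw [div_lt_iff₀ hδ] at hm0
    have : (m0 : ℝ) ≤ m := by exact_mod_cast hm1
    nlinarith
  have hA0 : (0 : ℝ) < A := by nlinarith
  have hbig : ((s : ℝ) + 1) * A < δ * N := by
    have p1 : 5 * (m : ℝ) < δ * m * m := by nlinarith
    have p2 : δ * m * m ≤ δ * A := by nlinarith
    have p3 : ((s : ℝ) + 1) * A < (δ * A) * A := mul_lt_mul_of_pos_right (by linarith) hA0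
    have p4 : δ * A * A ≤ δ * N := by rw [hNR]; nlinarith [sq_nonneg (B : ℝ)]
    linarith
  refine ⟨N, (u0 + s) * A - v0 * B, (u0 + s) * B + v0 * A, by omega, ?_, ?_, ?_⟩
  · rw [div_sub' hN0.ne', abs_div, abs_of_pos hN0, div_lt_iff₀ hN0]
    refine lt_of_le_of_lt ?_ hbig
    push_cast
    rw [hNR, abs_le]
    constructor <;> nlinarith
  · rw [div_sub' hN0.ne', abs_div, abs_of_pos hN0, div_lt_iff₀ hN0]
    refine lt_of_le_of_lt ?_ hbig
    push_cast
    rw [hNR, abs_le]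
    constructor <;> nlinarith
  · intro q hq1 hq2
    set a : ℤ := (u0 + s) * A - v0 * B with ha
    set b : ℤ := (u0 + s) * B + v0 * A with hb
    set r1 : ℤ := round ((q : ℝ) * ((a : ℝ) / N)) with hr1
    set r2 : ℤ := round ((q : ℝ) * ((b : ℝ) / N)) with hr2
    have f1 : (q * (u0 + s) - (A * r1 + B * r2)) * A - (q * v0 - (A * r2 - B * r1)) * B =
        q * a - r1 * N := by rw [hNZ, ha]; ring
    have f2 : (q * (u0 + s) - (A * r1 + B * r2)) * B + (q * v0 - (A * r2 - B * r1)) * A =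
        q * b - r2 * N := by rw [hNZ, hb]; ring
    have g1 : nd (q * ((a : ℝ) / N)) = |((q * a - r1 * N : ℤ) : ℝ)| / N := by
      unfold nd
      rw [← hr1, ← abs_of_pos hN0, ← abs_div, abs_of_pos hN0]
      congr 1; push_cast; field_simp
    have g2 : nd (q * ((b : ℝ) / N)) = |((q * b - r2 * N : ℤ) : ℝ)| / N := by
      unfold nd
      rw [← hr2, ← abs_of_pos hN0, ← abs_div, abs_of_pos hN0]
      congr 1; push_cast; field_simp
    have hne : q * a - r1 * N ≠ 0 := by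
      intro h
      have h1 : (N : ℤ) ∣ q * a := ⟨r1, by linarith⟩
      have h2 : IsCoprime (N : ℤ) a := by
        rw [ha, show (u0 + s) * (A : ℤ) - v0 * B = u0 * A - v0 * B + s * A by ring]
        exact hco.symm
      have h3 := Int.le_of_dvd (by omega) (h2.dvd_of_dvd_mul_right h1)
      omega
    have hlt : |q * a - r1 * N| < (N : ℤ) := by
      have h1 := nd_le_half (q * ((a : ℝ) / N))
      rw [g1, div_le_iff₀ hN0] at h1
      have h2 : |((q * a - r1 * N : ℤ) : ℝ)| < N := by linarith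
      exact_mod_cast h2
    have main := prodLB A B (q * (u0 + s) - (A * r1 + B * r2)) (q * v0 - (A * r2 - B * r1)) hcas
      (by rw [f1]; exact hne) (by rw [f1, ← hNZ]; exact hlt)
    rw [f1, f2, ← hNZ] at main
    rw [g1, g2]
    have : (N : ℝ) * (|((q * a - r1 * N : ℤ) : ℝ)| / N * (|((q * b - r2 * N : ℤ) : ℝ)| / N)) =
        |((q * a - r1 * N : ℤ) : ℝ)| * |((q * b - r2 * N : ℤ) : ℝ)| / N := by field_simp
    rw [this, le_div_iff₀ hN0]
    exact_mod_cast main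

end Pool.Agent.H660Z.Ds
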