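import Pool.Agent.H660Z.Ds.Fib

namespace Pool.Agent.H660Z.Ds

theorem step1 (t : ℝ) (ht0 : 0 ≤ t) (ht1 : t ≤ (3 - √5) / 2) (n : ℕ) (hn : 1 ≤ n) (ξ ζ δ : ℝ)
    (hδ : 0 < δ) (c : ℤ) (hc : (n : ℝ) * ξ = c) :
    ∃ (N : ℕ) (ξ' ζ' : ℝ), n < N ∧ |ξ' - ξ| < δ ∧ |ζ' - ζ| < δ ∧ (∃ b : ℤ, (N : ℝ) * ζ' = b) ∧
      (∀ M : ℕ, n ≤ M → M < N → ((M : ℝ) + 1) * mQ ξ' ζ' M ≤ t) ∧
      ∃ M : ℕ, n ≤ M ∧ M < N ∧ ((M : ℝ) + 1) * mQ ξ' ζ' M = t := by
  obtain ⟨N, a, b, hN, ha, hb, hq⟩ := dense_good ξ ζ δ hδ n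
  have hN0 : (0 : ℝ) < N := by exact_mod_cast (by omega : 0 < N)
  have hne : (Finset.Ico n N).Nonempty := ⟨n, by simp [hN]⟩
  let F : ℝ → ℝ := fun x => (Finset.Ico n N).sup' hne
    (fun M : ℕ => ((M : ℝ) + 1) * mQ x ((b : ℝ) / N) M)
  have hF : Continuous F := by
    apply Continuous.finset_sup'_apply hne
    intro M hM
    have : 1 ≤ M := le_trans hn (Finset.mem_Ico.1 hM).1
    exact continuous_const.mul (mQ_cont _ _ (by exact_mod_cast this))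
  have h0 : F ξ ≤ t := by
    apply Finset.sup'_le
    intro M hM
    have h1 : (((n : ℤ)) : ℝ) ≤ M := by exact_mod_cast (Finset.mem_Ico.1 hM).1
    have h2 := mQ_le ξ ((b : ℝ) / N) M n (by exact_mod_cast hn) h1
    push_cast at h2
    rw [hc, nd_int, zero_mul] at h2
    have h3 : (0 : ℝ) ≤ (M : ℝ) + 1 := by positivity
    nlinarith
  have h1 : t ≤ F ((a : ℝ) / N) := by
    obtain ⟨M, rfl⟩ : ∃ M, N = M + 1 := ⟨N - 1, by omega⟩
    have hM : M ∈ Finset.Ico n (M + 1) := by simp; omega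
    refine le_trans ?_ (Finset.le_sup' (fun M' : ℕ => ((M' : ℝ) + 1) *
      mQ ((a : ℝ) / (M + 1 : ℕ)) ((b : ℝ) / (M + 1 : ℕ)) M') hM)
    have h2 : (3 - √5) / 2 / (M + 1 : ℕ) ≤
        mQ ((a : ℝ) / (M + 1 : ℕ)) ((b : ℝ) / (M + 1 : ℕ)) M := by
      apply le_mQ _ _ _ _ (by exact_mod_cast (by omega : 1 ≤ M))
      intro q hq1 hq2
      have hq3 : q ≤ M := by exact_mod_cast hq2
      rw [div_le_iff₀ hN0, mul_comm]
      exact hq q hq1 (by push_cast; omega)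
    rw [div_le_iff₀ hN0] at h2
    push_cast at h2 ⊢
    linarith
  have hiv := intermediate_value_uIcc (a := ξ) (b := (a : ℝ) / N) hF.continuousOn
  obtain ⟨x, hx, hxt⟩ := hiv (Set.mem_uIcc.2 (Or.inl ⟨h0, h1⟩))
  refine ⟨N, x, (b : ℝ) / N, hN, ?_, hb, ⟨b, by field_simp⟩, ?_, ?_⟩
  · exact lt_of_le_of_lt (Set.abs_sub_left_of_mem_uIcc hx) ha
  · intro M h1 h2
    rw [← hxt]
    exact Finset.le_sup' (fun M : ℕ => ((M : ℝ) + 1) * mQ x ((b : ℝ) / N) M)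
      (Finset.mem_Ico.2 ⟨h1, h2⟩)
  · obtain ⟨M, hM, hM2⟩ := Finset.exists_mem_eq_sup' hne
      (fun M : ℕ => ((M : ℝ) + 1) * mQ x ((b : ℝ) / N) M)
    exact ⟨M, (Finset.mem_Ico.1 hM).1, (Finset.mem_Ico.1 hM).2, by rw [← hxt]; exact hM2.symm⟩

/-- A stage of the construction. -/
structure St where
  n : ℕ
  x : ℝ
  y : ℝ
  d : ℝ
  hn : 1 ≤ n
  hd : 0 < d
  hr : (∃ c : ℤ, (n : ℝ) * x = c) ∨ (∃ c : ℤ, (n : ℝ) * y = c)

theorem step2 (t : ℝ) (ht0 : 0 ≤ t) (ht1 : t ≤ (3 - √5) / 2) (s : St) :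
    ∃ s' : St, s.n < s'.n ∧ |s'.x - s.x| + s'.d ≤ s.d ∧ |s'.y - s.y| + s'.d ≤ s.d ∧
      s'.d ≤ 1 / (s'.n : ℝ) ^ 3 ∧
      (∀ M : ℕ, s.n ≤ M → M < s'.n → ((M : ℝ) + 1) * mQ s'.x s'.y M ≤ t) ∧
      ∃ M : ℕ, s.n ≤ M ∧ M < s'.n ∧ ((M : ℝ) + 1) * mQ s'.x s'.y M = t := by
  have hd2 : 0 < s.d / 2 := by linarith [s.hd]
  rcases s.hr with ⟨c, hc⟩ | ⟨c, hc⟩
  · obtain ⟨N, x, y, h1, h2, h3, h4, h5, h6⟩ := step1 t ht0 ht1 s.n s.hn s.x s.y _ hd2 c hc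
    have hN0 : (0 : ℝ) < N := by exact_mod_cast (by omega : 0 < N)
    have m1 := min_le_left (s.d / 2) (1 / (N : ℝ) ^ 3)
    refine ⟨⟨N, x, y, min (s.d / 2) (1 / (N : ℝ) ^ 3), by omega, lt_min hd2 (by positivity),
      Or.inr h4⟩, h1, ?_, ?_, min_le_right _ _, h5, h6⟩
    · dsimp only; linarith
    · dsimp only; linarith
  · obtain ⟨N, y, x, h1, h2, h3, h4, h5, h6⟩ := step1 t ht0 ht1 s.n s.hn s.y s.x _ hd2 c hc
    have hN0 : (0 : ℝ) < N := by exact_mod_cast (by omega : 0 < N)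
    have m1 := min_le_left (s.d / 2) (1 / (N : ℝ) ^ 3)
    simp only [mQ_comm y x] at h5 h6
    refine ⟨⟨N, x, y, min (s.d / 2) (1 / (N : ℝ) ^ 3), by omega, lt_min hd2 (by positivity),
      Or.inl h4⟩, h1, ?_, ?_, min_le_right _ _, h5, h6⟩
    · dsimp only; linarith
    · dsimp only; linarith

theorem nested (c d : ℕ → ℝ) (hd : ∀ k, 0 < d k) (h : ∀ k, |c (k + 1) - c k| + d (k + 1) ≤ d k) :
    ∃ z, ∀ k, |z - c k| ≤ d k := by
  have m1 : Monotone (fun k => c k - d k) := monotone_nat_of_le_succ (fun k => by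
    have := h k
    have := neg_abs_le (c (k + 1) - c k)
    linarith)
  have m2 : Antitone (fun k => c k + d k) := antitone_nat_of_succ_le (fun k => by
    have := h k
    have := le_abs_self (c (k + 1) - c k)
    linarith)
  obtain ⟨z, hz1, hz2⟩ := exists_between_of_forall_le (s := Set.range (fun k => c k - d k))
    (t := Set.range (fun k => c k + d k)) (Set.range_nonempty _) (Set.range_nonempty _) (by
      rintro _ ⟨i, rfl⟩ _ ⟨j, rfl⟩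
      have a1 := m1 (le_max_left i j)
      have a2 := m2 (le_max_right i j)
      have := hd (max i j)
      dsimp only at a1 a2 ⊢
      linarith)
  refine ⟨z, fun k => ?_⟩
  have b1 := hz1 ⟨k, rfl⟩
  have b2 := hz2 ⟨k, rfl⟩
  dsimp only at b1 b2
  rw [abs_le]; constructor <;> linarith

theorem err_bound (M N : ℕ) (hM : M < N) (d e : ℝ) (he0 : 0 ≤ e) (he : e ≤ 2 * d)
    (hd : d ≤ 1 / (N : ℝ) ^ 3) : ((M : ℝ) + 1) * (M * e) ≤ 2 / ((M : ℝ) + 1) := by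
  have h1 : (M : ℝ) + 1 ≤ N := by exact_mod_cast hM
  have h0 : (0 : ℝ) ≤ M := Nat.cast_nonneg M
  have hN : (0 : ℝ) < N := by linarith
  rw [le_div_iff₀ (by positivity)] at hd ⊢
  have h2 : ((M : ℝ) + 1) * (M * e) * (M + 1) ≤ N * (N * e) * N := by
    gcongr
  have h3 : (N : ℝ) * (N * e) * N = e * N ^ 3 := by ring
  have h4 : e * (N : ℝ) ^ 3 ≤ 2 * d * N ^ 3 := mul_le_mul_of_nonneg_right he (by positivity)
  linarith

theorem spec_lower : Set.Icc 0 ((3 - √5) / 2) ⊆ Spec := by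
  rintro t ⟨ht0, ht1⟩
  choose nx hnx using step2 t ht0 ht1
  let s0 : St := ⟨1, 0, 0, 1, le_refl _, one_pos, Or.inl ⟨0, by simp⟩⟩
  let s : ℕ → St := fun k => nx^[k] s0
  have hs : ∀ k, s (k + 1) = nx (s k) := fun k => Function.iterate_succ_apply' nx k s0
  obtain ⟨ξ, hξ⟩ := nested (fun k => (s k).x) (fun k => (s k).d) (fun k => (s k).hd)
    (fun k => by rw [hs]; exact (hnx (s k)).2.1)
  obtain ⟨ζ, hζ⟩ := nested (fun k => (s k).y) (fun k => (s k).d) (fun k => (s k).hd)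
    (fun k => by rw [hs]; exact (hnx (s k)).2.2.1)
  have hmono : StrictMono (fun k => (s k).n) := strictMono_nat_of_lt_succ (fun k => by
    rw [hs]; exact (hnx (s k)).1)
  have close : ∀ k M : ℕ, 1 ≤ M → M < (s (k + 1)).n →
      ((M : ℝ) + 1) * mQ ξ ζ M ≤ ((M : ℝ) + 1) * mQ (s (k + 1)).x (s (k + 1)).y M + 2 / ((M : ℝ) + 1) ∧
      ((M : ℝ) + 1) * mQ (s (k + 1)).x (s (k + 1)).y M ≤ ((M : ℝ) + 1) * mQ ξ ζ M + 2 / ((M : ℝ) + 1) := by
    intro k M h1 h2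
    have hM : (1 : ℝ) ≤ M := by exact_mod_cast h1
    have a1 := hξ (k + 1)
    have a2 := hζ (k + 1)
    have hd : (s (k + 1)).d ≤ 1 / ((s (k + 1)).n : ℝ) ^ 3 := by
      rw [hs]; exact (hnx (s k)).2.2.2.1
    have e := err_bound M _ h2 _ (|ξ - (s (k + 1)).x| + |ζ - (s (k + 1)).y|) (by positivity)
      (by linarith) hd
    have l1 := mQ_lip ξ ζ (s (k + 1)).x (s (k + 1)).y M hM
    have l2 := mQ_lip (s (k + 1)).x (s (k + 1)).y ξ ζ M hM
    rw [abs_sub_comm (s (k + 1)).x, abs_sub_comm (s (k + 1)).y] at l2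
    have p : (0 : ℝ) ≤ (M : ℝ) + 1 := by positivity
    have l1' := mul_le_mul_of_nonneg_left l1 p
    have l2' := mul_le_mul_of_nonneg_left l2 p
    constructor <;> linarith
  refine ⟨ξ, ζ, Lval_eq ξ ζ t 2 1 ?_ ?_⟩
  · intro M hM
    have hex : ∃ k, M < (s (k + 1)).n := ⟨M, lt_of_lt_of_le (Nat.lt_succ_self M) (hmono.id_le (M + 1))⟩
    classical
    let k := Nat.find hex
    have hk1 : M < (s (k + 1)).n := Nat.find_spec hex
    have hk0 : (s k).n ≤ M := by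
      rcases hk : k with _ | k'
      · exact hM
      · have := Nat.find_min hex (show k' < Nat.find hex by change k' < k; omega)
        omega
    have c1 := (close k M hM hk1).1
    have c2 : ((M : ℝ) + 1) * mQ (s (k + 1)).x (s (k + 1)).y M ≤ t := by
      rw [hs] at hk1 ⊢
      exact (hnx (s k)).2.2.2.2.1 M hk0 hk1
    linarith
  · intro K
    obtain ⟨M, h1, h2, h3⟩ := (hnx (s K)).2.2.2.2.2
    rw [← hs] at h2 h3
    have c1 := (close K M (le_trans (s K).hn h1) h2).2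
    exact ⟨M, le_trans (hmono.id_le K) h1, by linarith⟩

end Pool.Agent.H660Z.Ds
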