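import Pool.Agent.H660Z.Ds.Basic

namespace Pool.Agent.H660Z.Ds

theorem nd_tri (u v : ℝ) : nd u + nd v + nd (u + v) ≤ 1 := by
  have h0 := nd_le (u + v) (round u + round v)
  have h1 := nd_le (u + v) (round u + round v + 1)
  have h2 := nd_le (u + v) (round u + round v - 1)
  have a := nd_le_half u
  have b := nd_le_half v
  push_cast at h0 h1 h2
  unfold nd at a b ⊢
  unfold nd at h0 h1 h2
  generalize |u + v - (round (u + v) : ℝ)| = w at *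
  generalize (round u : ℝ) = ru at *
  generalize (round v : ℝ) = rv at *
  rcases abs_cases (u - ru) with ⟨e1, f1⟩ | ⟨e1, f1⟩ <;>
  rcases abs_cases (v - rv) with ⟨e2, f2⟩ | ⟨e2, f2⟩ <;>
  rcases abs_cases (u + v - (ru + rv)) with ⟨e3, f3⟩ | ⟨e3, f3⟩ <;>
  rcases abs_cases (u + v - (ru + rv + 1)) with ⟨e4, f4⟩ | ⟨e4, f4⟩ <;>
  rcases abs_cases (u + v - (ru + rv - 1)) with ⟨e5, f5⟩ | ⟨e5, f5⟩ <;> linarith

theorem core3 (m a b c g1 g2 : ℝ) (hm : 0 ≤ m) (ha : 0 ≤ a) (hb : 0 ≤ b)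
    (hg1 : 0 ≤ g1) (hg2 : 0 ≤ g2) (hs : a + b + c ≤ 1)
    (h1 : m ≤ a * g1) (h2 : m ≤ b * g2) (h3 : m ≤ c * (g1 + g2)) : 5 * m ≤ g1 + g2 := by
  have h4 : 2 * m ≤ a * g2 + b * g1 := by
    by_contra hc
    push Not at hc
    have p1 : 0 ≤ a * g2 := mul_nonneg ha hg2
    have p2 : 0 ≤ b * g1 := mul_nonneg hb hg1
    have p3 : m * m ≤ (a * g1) * (b * g2) := mul_le_mul h1 h2 hm (le_trans hm h1)
    have p4 : (a * g2 + b * g1) * (a * g2 + b * g1) < (2 * m) * (2 * m) :=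
      mul_lt_mul'' hc hc (by linarith) (by linarith)
    nlinarith [sq_nonneg (a * g2 - b * g1)]
  have h5 : (a + b + c) * (g1 + g2) ≤ 1 * (g1 + g2) :=
    mul_le_mul_of_nonneg_right hs (by linarith)
  nlinarith

/-- Differences of two indices in `[0, M]` give admissible `q`. -/
theorem mQ_le_diff (ξ ζ : ℝ) (M i j : ℕ) (hi : i ≤ M) (hj : j ≤ M) (hij : i ≠ j) :
    mQ ξ ζ M ≤ nd ((i : ℝ) * ξ - j * ξ) * |Int.fract ((i : ℝ) * ζ) - Int.fract ((j : ℝ) * ζ)| := by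
  have key : ∀ i j : ℕ, i ≤ M → j < i →
      mQ ξ ζ M ≤ nd ((i : ℝ) * ξ - j * ξ) * |Int.fract ((i : ℝ) * ζ) - Int.fract ((j : ℝ) * ζ)| := by
    intro i j hi hji
    have h1 : (1 : ℤ) ≤ (i : ℤ) - j := by omega
    have h2 : (((i : ℤ) - j : ℤ) : ℝ) ≤ M := by
      have : (i : ℤ) - j ≤ M := by omega
      exact_mod_cast this
    have h3 := mQ_le ξ ζ M _ h1 h2
    have h4 := nd_le ((((i : ℤ) - j : ℤ) : ℝ) * ζ) (⌊(i : ℝ) * ζ⌋ - ⌊(j : ℝ) * ζ⌋)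
    have e1 : ((((i : ℤ) - j : ℤ) : ℝ) * ζ) - ((⌊(i : ℝ) * ζ⌋ - ⌊(j : ℝ) * ζ⌋ : ℤ) : ℝ)
        = Int.fract ((i : ℝ) * ζ) - Int.fract ((j : ℝ) * ζ) := by
      unfold Int.fract; push_cast; ring
    have e2 : (((i : ℤ) - j : ℤ) : ℝ) * ξ = (i : ℝ) * ξ - j * ξ := by push_cast; ring
    rw [e1] at h4
    rw [e2] at h3
    exact h3.trans (mul_le_mul_of_nonneg_left h4 (nd_nonneg _))
  rcases lt_or_gt_of_ne hij with h | h
  · have := key j i hj h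
    rw [← nd_neg, abs_sub_comm] at this
    simpa using this
  · exact key i j hi h

theorem three (m ℓ x1 x2 x3 y1 y2 y3 : ℝ) (hm : 0 ≤ m) (o1 : y1 ≤ y2) (o2 : y2 ≤ y3)
    (hl : y3 - y1 ≤ ℓ)
    (h12 : m ≤ nd (x1 - x2) * |y1 - y2|) (h23 : m ≤ nd (x2 - x3) * |y2 - y3|)
    (h13 : m ≤ nd (x1 - x3) * |y1 - y3|) : 5 * m ≤ ℓ := by
  have ht := nd_tri (x1 - x2) (x2 - x3)
  rw [show x1 - x2 + (x2 - x3) = x1 - x3 by ring] at ht
  rw [abs_of_nonpos (by linarith)] at h12 h23 h13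
  have := core3 m _ _ _ (-(y1 - y2)) (-(y2 - y3)) hm (nd_nonneg _) (nd_nonneg _)
    (by linarith) (by linarith) ht h12 h23 (by rw [show -(y1 - y2) + -(y2 - y3) = -(y1 - y3) by ring]; exact h13)
  linarith

theorem upper_nat (ξ ζ : ℝ) (K M : ℕ) (hK : 0 < K) (hM : 2 * K ≤ M) :
    5 * mQ ξ ζ M ≤ 1 / K := by
  classical
  have hKr : (0 : ℝ) < K := by exact_mod_cast hK
  let f : ℕ → ℕ := fun i => ⌊(K : ℝ) * Int.fract ((i : ℝ) * ζ)⌋₊
  have hmaps : ∀ i ∈ Finset.range (M + 1), f i ∈ Finset.range K := by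
    intro i _
    rw [Finset.mem_range]
    apply (Nat.floor_lt (mul_nonneg hKr.le (Int.fract_nonneg _))).2
    have := Int.fract_lt_one ((i : ℝ) * ζ)
    nlinarith
  obtain ⟨b, -, hb⟩ := Finset.exists_lt_card_fiber_of_mul_lt_card_of_maps_to hmaps (n := 2)
    (by simp; omega)
  obtain ⟨i, hi, j, hj, k, hk, hij, hik, hjk⟩ := Finset.two_lt_card.1 hb
  simp only [Finset.mem_filter, Finset.mem_range] at hi hj hk
  have box : ∀ i, f i = b → (b : ℝ) / K ≤ Int.fract ((i : ℝ) * ζ) ∧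
      Int.fract ((i : ℝ) * ζ) ≤ (b : ℝ) / K + 1 / K := by
    intro i hi
    have h0 : 0 ≤ (K : ℝ) * Int.fract ((i : ℝ) * ζ) := mul_nonneg hKr.le (Int.fract_nonneg _)
    have h1 := Nat.floor_le h0
    have h2 := Nat.lt_floor_add_one ((K : ℝ) * Int.fract ((i : ℝ) * ζ))
    have e : (⌊(K : ℝ) * Int.fract ((i : ℝ) * ζ)⌋₊ : ℝ) = b := by exact_mod_cast hi
    rw [e] at h1 h2
    constructor
    · rw [div_le_iff₀ hKr]; linarith
    · rw [← add_div, le_div_iff₀ hKr]; linarith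
  have bi := box i hi.2
  have bj := box j hj.2
  have bk := box k hk.2
  have D : ∀ i j : ℕ, i < M + 1 → j < M + 1 → i ≠ j → mQ ξ ζ M ≤
      nd ((i : ℝ) * ξ - j * ξ) * |Int.fract ((i : ℝ) * ζ) - Int.fract ((j : ℝ) * ζ)| :=
    fun i j hi hj hij => mQ_le_diff ξ ζ M i j (by omega) (by omega) hij
  have m0 := mQ_nonneg ξ ζ M
  have dij := D i j hi.1 hj.1 hij
  have dji := D j i hj.1 hi.1 hij.symm
  have dik := D i k hi.1 hk.1 hik
  have dki := D k i hk.1 hi.1 hik.symm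
  have djk := D j k hj.1 hk.1 hjk
  have dkj := D k j hk.1 hj.1 hjk.symm
  generalize Int.fract ((i : ℝ) * ζ) = yi at *
  generalize Int.fract ((j : ℝ) * ζ) = yj at *
  generalize Int.fract ((k : ℝ) * ζ) = yk at *
  rcases le_total yi yj with a | a <;> rcases le_total yj yk with c | c <;>
    rcases le_total yi yk with d | d
  · exact three _ _ _ _ _ _ _ _ m0 a c (by linarith [bi.1, bk.2]) dij djk dik
  · exact three _ _ _ _ _ _ _ _ m0 a c (by linarith [bi.1, bk.2]) dij djk dik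
  · exact three _ _ _ _ _ _ _ _ m0 d c (by linarith [bi.1, bj.2]) dik dkj dij
  · exact three _ _ _ _ _ _ _ _ m0 d a (by linarith [bk.1, bj.2]) dki dij dkj
  · exact three _ _ _ _ _ _ _ _ m0 a d (by linarith [bj.1, bk.2]) dji dik djk
  · exact three _ _ _ _ _ _ _ _ m0 c d (by linarith [bj.1, bi.2]) djk dki dji
  · exact three _ _ _ _ _ _ _ _ m0 c a (by linarith [bk.1, bi.2]) dkj dji dki
  · exact three _ _ _ _ _ _ _ _ m0 c a (by linarith [bk.1, bi.2]) dkj dji dki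

theorem upper_succ (ξ ζ : ℝ) (M : ℕ) (hM : 2 ≤ M) :
    ((M : ℝ) + 1) * mQ ξ ζ M ≤ 2 / 5 + 3 / ((M : ℝ) + 1) := by
  have h := upper_nat ξ ζ (M / 2) M (by omega) (by omega)
  have hK1 : M ≤ 2 * (M / 2) + 1 := by omega
  have hK2 : 1 ≤ M / 2 := by omega
  generalize M / 2 = K at *
  have hK1' : (M : ℝ) ≤ 2 * K + 1 := by exact_mod_cast hK1
  have hK2' : (1 : ℝ) ≤ K := by exact_mod_cast hK2
  have hM0 : (0 : ℝ) ≤ M := Nat.cast_nonneg M
  have m0 := mQ_nonneg ξ ζ M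
  rw [le_div_iff₀ (by linarith)] at h
  have h1 : ((M : ℝ) + 1) * mQ ξ ζ M ≤ (2 * K + 2) * mQ ξ ζ M :=
    mul_le_mul_of_nonneg_right (by linarith) m0
  have h2 : 2 * mQ ξ ζ M ≤ 3 / ((M : ℝ) + 1) := by
    rw [le_div_iff₀ (by linarith)]
    nlinarith
  nlinarith

theorem spec_upper : Spec ⊆ Set.Icc 0 (2 / 5) := by
  rintro t ⟨ξ, ζ, rfl⟩
  obtain ⟨h1, h2⟩ := Lval_le ξ ζ (2 / 5) 3 2 (upper_succ ξ ζ)
  exact ⟨Lval_nonneg ξ ζ _ (h1 1 one_pos), h2⟩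

end Pool.Agent.H660Z.Ds
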